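import Pool.Agent.QPI.Stmts

set_option autoImplicit false

namespace Pool.Agent.QPI.H88

open MvPolynomial Finset
open scoped Classical in
/-- Bounded exponent vectors with at most `K` variables. -/
noncomputable def SS {ν : Type} [Fintype ν] (μ : ℕ) : ℕ → Finset (ν →₀ ℕ)
  | 0 => {0}
  | K + 1 => ((Finset.univ : Finset (Option (ν × Fin (μ + 1)))) ×ˢ SS μ K).image
      fun q => q.2 + q.1.elim 0 (fun r => Finsupp.single r.1 (r.2 : ℕ))

open scoped Classical in
theorem SS_card {ν : Type} [Fintype ν] (μ K : ℕ) :
    (SS (ν := ν) μ K).card ≤ (Fintype.card ν * (μ + 1) + 1) ^ K := by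
  induction K with
  | zero => simp [SS]
  | succ K ih =>
    rw [SS]
    refine Finset.card_image_le.trans ?_
    rw [Finset.card_product, Finset.card_univ, Fintype.card_option, Fintype.card_prod,
      Fintype.card_fin, pow_succ, mul_comm]
    exact Nat.mul_le_mul_right _ ih

theorem mem_SS {ν : Type} [Fintype ν] (μ K : ℕ) (α : ν →₀ ℕ) (h : ∀ v, α v ≤ μ)
    (hK : α.support.card ≤ K) : α ∈ SS (ν := ν) μ K := by
  classical
  induction K generalizing α with
  | zero =>
    have h0 : α = 0 := by
      rw [← Finsupp.support_eq_empty, ← Finset.card_eq_zero]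
      omega
    rw [h0, SS]
    exact Finset.mem_singleton_self _
  | succ K ih =>
    rw [SS, Finset.mem_image]
    by_cases h0 : α = 0
    · refine ⟨(none, 0), ?_, ?_⟩
      · rw [Finset.mem_product]
        exact ⟨Finset.mem_univ _, ih 0 (fun v => by simp) (by simp)⟩
      · simp [h0]
    · obtain ⟨v, hv⟩ := Finsupp.support_nonempty_iff.2 h0
      refine ⟨(some (v, ⟨α v, Nat.lt_succ_of_le (h v)⟩), α.erase v), ?_, ?_⟩
      · rw [Finset.mem_product]
        refine ⟨Finset.mem_univ _, ih _ (fun w => ?_) ?_⟩
        · by_cases hw : w = v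
          · rw [hw, Finsupp.erase_same]
            exact Nat.zero_le _
          · rw [Finsupp.erase_ne hw]
            exact h w
        · rw [Finsupp.support_erase, Finset.card_erase_of_mem hv]
          omega
      · exact Finsupp.erase_add_single v α

theorem c_cnt : CntStmt := by
  classical
  intro N₁ N₂ K μ p hp hK
  have h1 : p.support ⊆ SS μ K := by
    intro α hα
    refine mem_SS μ K α (fun v => ?_) (hK α hα)
    have h2 : Finsupp.weight (wt : Fin N₁ ⊕ Fin N₂ → ℕ) α = μ := hp (mem_support_iff.1 hα)
    have h3 : wt v ≠ 0 := by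
      rcases v with u | u
      · exact one_ne_zero
      · exact two_ne_zero
    rw [← h2]
    exact Finsupp.le_weight wt h3 α
  refine (Finset.card_le_card h1).trans ((SS_card μ K).trans ?_)
  rw [Fintype.card_sum, Fintype.card_fin, Fintype.card_fin]

end Pool.Agent.QPI.H88
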